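import Pool.Agent.N166.AJ.Stm
import Pool.Agent.N166.HI.Main

/-!
# Abel-Jacobi maps and hard Lefschetz for one variety: proofs
-/

set_option autoImplicit false

open CategoryTheory AlgebraicGeometry

universe u v w

namespace Pool.Agent.N166.AJ

open Pool.Agent.H914 Pool.Agent.H914.VarClass Pool.Agent.H914.VarClass.Obj
open Pool.Agent.W492.BB (TheoryData WeilTheoryData Realised)
open Pool.Agent.N164 (Prim.IsChowTheory Prim.IsWeilTheory Prim.Cor Prim.HomTriv Prim.Kills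
  Prim.IsAbelJacobiKernel)
open Pool.Agent.N166.HI

attribute [-instance] Pool.Agent.TH829.Kim.chCommRing

variable {k : Type u} [Field k] {𝒱 : VarClass k} {C : TheoryData.{u, v, 0} 𝒱 ℚ} {K : Type w}
  [Field K] {H : WeilTheoryData.{u, v, w} C K} {X : 𝒱.Obj} {h : C.A X}
  {N : ∀ X : 𝒱.Obj, ℕ → Submodule ℚ (C.A X)}

lemma ker_realised (hN : Prim.IsAbelJacobiKernel H N) {e : ℤ} {φ : C.A X → C.A X}
    {ψ : H.A X → H.A X} (hr : Realised H X X e φ ψ) {j i : ℕ} (hij : (i : ℤ) = j + e) {z : C.A X}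
    (hz : z ∈ N X j) : φ z ∈ N X i := by
  obtain ⟨Γ, h1, h2, -⟩ := hr
  rw [← h2]
  refine hN.stable X X j i Γ ?_ z hz
  change Γ ∈ C.gr _ _
  rwa [show (X.dim : ℤ) + i - j = X.dim + e by omega]

lemma kills_realised (hN : Prim.IsAbelJacobiKernel H N) {e : ℤ} {φ : C.A X → C.A X}
    {ψ : H.A X → H.A X} (hr : Realised H X X e φ ψ) {j i : ℕ} (hij : (i : ℤ) = j + e)
    (hk : ∀ a : H.A X, H.Deg (2 * j - 1) a → ψ a = 0) {z : C.A X}
    (hz : Prim.HomTriv H j z) : φ z ∈ N X i := by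
  obtain ⟨Γ, h1, h2, h3⟩ := hr
  rw [← h2]
  refine hN.kills X X j i Γ ?_ (fun a ha => ?_) z hz
  · change Γ ∈ C.gr _ _
    rwa [show (X.dim : ℤ) + i - j = X.dim + e by omega]
  · exact (h3 a).trans (hk a ha)

section

variable [iC : TH133.IsChowProj C] [iH : TH133.IsWeilProj H]
include iC iH

lemma hom_realised {e : ℤ} {φ : C.A X → C.A X}
    {ψ : H.A X → H.A X} (hr : Realised H X X e φ ψ) {j i : ℕ} (hij : (i : ℤ) = j + e)
    {z : C.A X} (hz : Prim.HomTriv H j z) : Prim.HomTriv H i (φ z) := by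
  obtain ⟨Γ, h1, h2, -⟩ := hr
  rw [← h2]
  have hz2 : H.cl z = 0 := hz.2
  refine ⟨?_, ?_⟩
  · have := W492.BB.act_mem h1 hz.1
    change _ ∈ C.gr _ _
    rwa [hij]
  · change H.cl (C.act Γ z) = 0
    rw [W492.BB.cl_act H, hz2, TheoryData.act_map_zero]

lemma mul_real (hh : C.Deg 1 h) (a : ℕ) :
    Realised H X X a (fun x => h ^ a * x) (fun b => H.cl (h ^ a) * b) := by
  refine Realised.mul ?_
  induction a with
  | zero => rw [pow_zero]; exact C.one_mem X
  | succ a ih =>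
    have := C.mul_mem ih hh
    rw [pow_succ]
    push_cast
    exact this

/-- The facts on a pair of codimensions. -/
structure Pair (H : WeilTheoryData.{u, v, w} C K) (N : ∀ X : 𝒱.Obj, ℕ → Submodule ℚ (C.A X))
    (X : 𝒱.Obj) (h : C.A X) (i j a : ℕ) (t : C.A X → C.A X) : Prop where
  up : ∀ y ∈ N X i, h ^ a * y ∈ N X j
  down : ∀ z ∈ N X j, t z ∈ N X i
  homDown : ∀ z, Prim.HomTriv H j z → Prim.HomTriv H i (t z)
  left : ∀ y, Prim.HomTriv H i y → t (h ^ a * y) - y ∈ N X i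
  right : ∀ z, Prim.HomTriv H j z → h ^ a * t z - z ∈ N X j
  zero : t 0 = 0

omit iC iH in
lemma _root_.Pool.Agent.N166.AJ.Pair.injL {i j a : ℕ} {t : C.A X → C.A X}
    (P : Pair H N X h i j a t) (hi : ∀ z ∈ N X i, z = 0) (z : C.A X) (hz : Prim.HomTriv H i z)
    (h0 : h ^ a * z = 0) : z = 0 := by
  have h1 := hi _ (P.left z hz)
  rw [h0, P.zero, zero_sub, neg_eq_zero] at h1
  exact h1

omit iC iH in
lemma _root_.Pool.Agent.N166.AJ.Pair.surj {i j a : ℕ} {t : C.A X → C.A X}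
    (P : Pair H N X h i j a t) (hj : ∀ z ∈ N X j, z = 0) (w : C.A X) (hw : Prim.HomTriv H j w) :
    ∃ z, Prim.HomTriv H i z ∧ h ^ a * z = w :=
  ⟨t w, P.homDown w hw, sub_eq_zero.1 (hj _ (P.right w hw))⟩

omit iC iH in
lemma _root_.Pool.Agent.N166.AJ.Pair.toJ (hN : Prim.IsAbelJacobiKernel H N) {i j a : ℕ}
    {t : C.A X → C.A X} (P : Pair H N X h i j a t) (hi : ∀ z ∈ N X i, z = 0)
    (hs : ∀ w : C.A X, Prim.HomTriv H j w → ∃ z, Prim.HomTriv H i z ∧ h ^ a * z = w) :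
    ∀ z ∈ N X j, z = 0 := by
  intro z hz
  obtain ⟨y, hy, rfl⟩ := hs z (hN.hom X j z hz)
  have h1 := sub_eq_zero.1 (hi _ (P.left y hy))
  have h2 := hi _ (P.down _ hz)
  rw [← h1, h2, mul_zero]

omit iC iH in
lemma _root_.Pool.Agent.N166.AJ.Pair.toI (hN : Prim.IsAbelJacobiKernel H N) {i j a : ℕ}
    {t : C.A X → C.A X} (P : Pair H N X h i j a t) (hj : ∀ z ∈ N X j, z = 0)
    (hinj : ∀ z : C.A X, Prim.HomTriv H i z → h ^ a * z = 0 → z = 0) :
    ∀ z ∈ N X i, z = 0 :=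
  fun z hz => hinj z (hN.hom X i z hz) (hj _ (P.up z hz))

lemma pair (hN : Prim.IsAbelJacobiKernel H N) (hh : C.Deg 1 h) (hB : HasInverseLefschetz H X h)
    {i : ℕ} (hi1 : 1 ≤ i) (hi : 2 * i ≤ X.dim + 1) :
    ∃ t, Pair H N X h i (X.dim + 1 - i) (X.dim + 1 - 2 * i) t := by
  obtain ⟨θ, hθ, h1, h2⟩ := hB i hi1 hi
  have hm := mul_real (H := H) (X := X) hh (X.dim + 1 - 2 * i)
  have ht : Realised H X X (-((X.dim + 1 - 2 * i : ℕ) : ℤ)) (C.act θ) (H.act (H.cl θ)) := by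
    refine Realised.of ?_
    have h3 : θ ∈ C.gr (X.prod X) (2 * i - 1) := hθ
    rwa [show (X.dim : ℤ) + -((X.dim + 1 - 2 * i : ℕ) : ℤ) = 2 * i - 1 by omega]
  have hid := Realised.id (H := H) X
  have hl : Realised H X X 0 (fun y => C.act θ (h ^ (X.dim + 1 - 2 * i) * y) - y)
      (fun a => H.act (H.cl θ) (H.cl (h ^ (X.dim + 1 - 2 * i)) * a) - a) :=
    ((hm.comp ht).congr (by ring) (fun _ => rfl) (fun _ => rfl)).sub hid
  have hrr : Realised H X X 0 (fun z => h ^ (X.dim + 1 - 2 * i) * C.act θ z - z)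
      (fun a => H.cl (h ^ (X.dim + 1 - 2 * i)) * H.act (H.cl θ) a - a) :=
    ((ht.comp hm).congr (by ring) (fun _ => rfl) (fun _ => rfl)).sub hid
  refine ⟨C.act θ, fun y hy => ker_realised hN hm (by omega) hy,
    fun z hz => ker_realised hN ht (by omega) hz,
    fun z hz => hom_realised ht (by omega) hz,
    fun y hy => kills_realised hN hl (by omega) (fun a ha => sub_eq_zero.2 (h1 a ha)) hy,
    fun z hz => kills_realised hN hrr (by omega) (fun a ha => sub_eq_zero.2 (h2 a ?_)) hz,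
    C.act_map_zero θ⟩
  have h3 : a ∈ H.gr X (2 * ((X.dim + 1 - i : ℕ) : ℤ) - 1) := ha
  change a ∈ H.gr X (2 * (X.dim : ℤ) + 1 - 2 * i)
  rwa [show 2 * ((X.dim + 1 - i : ℕ) : ℤ) - 1 = 2 * (X.dim : ℤ) + 1 - 2 * i by omega] at h3

omit iH in
lemma above (hN : Prim.IsAbelJacobiKernel H N) {i : ℕ} (hi : X.dim < i) :
    ∀ z ∈ N X i, z = 0 :=
  fun z hz => iC.gr_top X i z (hN.hom X i z hz).1 (by exact_mod_cast hi)

lemma hom_zero (hN : Prim.IsAbelJacobiKernel H N) (h0 : ∀ z ∈ N X 0, z = 0) (z : C.A X)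
    (hz : Prim.HomTriv H 0 z) : z = 0 := by
  refine h0 z ?_
  have := kills_realised hN (Realised.id (H := H) X) (j := 0) (i := 0) (by simp)
    (fun a ha => ?_) hz
  · exact this
  · have h3 : a ∈ H.gr X (2 * ((0 : ℕ) : ℤ) - 1) := ha
    exact X308.S.hgr_neg h3 (by norm_num)

end

/-- **One pair of codimensions.** -/
theorem main_pair (hC : Prim.IsChowTheory C) (hH : Prim.IsWeilTheory H)
    (hN : Prim.IsAbelJacobiKernel H N) (hh : C.Deg 1 h) (hB : HasInverseLefschetz H X h)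
    {i : ℕ} (hi : 2 * i ≤ X.dim + 1) :
    (AJInjective N X i → LefschetzInjective H X h i) ∧
    (AJInjective N X (X.dim + 1 - i) → LefschetzSurjective H X h i) ∧
    (AJInjective N X i → LefschetzSurjective H X h i → AJInjective N X (X.dim + 1 - i)) ∧
    (AJInjective N X (X.dim + 1 - i) → LefschetzInjective H X h i → AJInjective N X i) := by
  have i1 := N164.Bridge.chow hC
  have i2 := N164.Bridge.weil hH
  rcases Nat.eq_zero_or_pos i with rfl | hi1
  · have ha := above (X := X) hN (i := X.dim + 1 - 0) (by omega)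
    refine ⟨fun h1 z hz _ => hom_zero hN h1 z hz, fun _ w hw => ?_, fun _ _ => ha, fun _ h2 z hz => ?_⟩
    · have hw0 : w = 0 := i1.gr_top X ((X.dim + 1 - 0 : ℕ) : ℤ) w hw.1 (by
        push_cast; omega)
      exact ⟨0, ⟨Submodule.zero_mem _, map_zero _⟩, by rw [hw0]; exact mul_zero _⟩
    · refine h2 z (hN.hom X 0 z hz) ?_
      have h3 := mul_real (H := H) (X := X) hh (X.dim + 1 - 2 * 0)
      exact ha _ (ker_realised hN h3 (by omega) hz)
  · obtain ⟨t, P⟩ := pair (H := H) hN hh hB hi1 hi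
    exact ⟨fun h1 z hz h0 => P.injL h1 z hz h0, fun h1 w hw => P.surj h1 w hw,
      fun h1 h2 => P.toJ hN h1 h2, fun h1 h2 => P.toI hN h1 h2⟩

lemma al_iff : ArithmeticLefschetz H X h ↔ ∀ i, 2 * i ≤ X.dim + 1 →
    LefschetzInjective H X h i ∧ LefschetzSurjective H X h i := Iff.rfl

/-- **Monotonicity.** -/
theorem mono (hC : Prim.IsChowTheory C) (hH : Prim.IsWeilTheory H)
    (hN : Prim.IsAbelJacobiKernel H N) (hh : C.Deg 1 h) (hB : HasInverseLefschetz H X h)
    (hA : ArithmeticLefschetz H X h) (c i : ℕ)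
    (hci : |2 * (c : ℤ) - (X.dim + 1)| ≤ |2 * (i : ℤ) - (X.dim + 1)|) (hc : AJInjective N X c) :
    AJInjective N X i := by
  have i1 := N164.Bridge.chow hC
  have i2 := N164.Bridge.weil hH
  have low : ∀ i' : ℕ, 2 * i' ≤ X.dim + 1 → i' ≤ c → c + i' ≤ X.dim + 1 → AJInjective N X i' := by
    intro i' h1 h2 h3 z hz
    refine (hA i' h1).1 z (hN.hom X i' z hz) ?_
    have h4 := ker_realised (i := c) hN (mul_real (H := H) (X := X) hh (c - i')) (by omega) hz
    have h5 : h ^ (c - i') * z = 0 := hc _ h4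
    have e : X.dim + 1 - 2 * i' = (X.dim + 1 - i' - c) + (c - i') := by omega
    change h ^ (X.dim + 1 - 2 * i') * z = 0
    rw [e, pow_add, mul_assoc, h5, mul_zero]
  rcases le_or_gt (2 * i) (X.dim + 1) with h1 | h1
  · rw [abs_of_nonpos (show 2 * (i : ℤ) - (X.dim + 1) ≤ 0 by omega)] at hci
    have h2 := abs_le.1 hci
    exact low i h1 (by omega) (by omega)
  · rcases lt_or_ge X.dim i with h2 | h2
    · exact above hN h2
    · rw [abs_of_nonneg (show 0 ≤ 2 * (i : ℤ) - (X.dim + 1) by omega)] at hci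
      have h3 := abs_le.1 hci
      have h4 := low (X.dim + 1 - i) (by omega) (by omega) (by omega)
      have h5 := (main_pair hC hH hN hh hB (i := X.dim + 1 - i) (by omega)).2.2.1 h4
        (hA (X.dim + 1 - i) (by omega)).2
      rwa [show X.dim + 1 - (X.dim + 1 - i) = i by omega] at h5

/-- **All codimensions.** -/
theorem main_all (hC : Prim.IsChowTheory C) (hH : Prim.IsWeilTheory H)
    (hN : Prim.IsAbelJacobiKernel H N) (hh : C.Deg 1 h) (hB : HasInverseLefschetz H X h) :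
    List.TFAE [∀ i, AJInjective N X i,
      (∀ i, 2 * i ≤ X.dim + 1 → AJInjective N X i) ∧
        ∀ i, 2 * i ≤ X.dim + 1 → LefschetzSurjective H X h i,
      (∀ i, X.dim + 1 ≤ 2 * i → AJInjective N X i) ∧
        ∀ i, 2 * i ≤ X.dim + 1 → LefschetzInjective H X h i,
      ArithmeticLefschetz H X h ∧ AJInjective N X ((X.dim + 1) / 2)] := by
  have i1 := N164.Bridge.chow hC
  have i2 := N164.Bridge.weil hH
  tfae_have 1 → 4 := fun h1 => ⟨fun i hi => ⟨(main_pair hC hH hN hh hB hi).1 (h1 i),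
    (main_pair hC hH hN hh hB hi).2.1 (h1 _)⟩, h1 _⟩
  tfae_have 4 → 1 := by
    rintro ⟨hA, hm⟩ i
    refine mono hC hH hN hh hB hA _ i ?_ hm
    rcases Nat.even_or_odd' (X.dim + 1) with ⟨m, hm' | hm'⟩
    · have e : (X.dim + 1) / 2 = m := by omega
      rw [e, show 2 * (m : ℤ) - (X.dim + 1) = 0 by omega, abs_zero]
      exact abs_nonneg _
    · have e : (X.dim + 1) / 2 = m := by omega
      rw [e, show 2 * (m : ℤ) - (X.dim + 1) = -1 by omega, abs_neg, abs_one]
      refine Int.one_le_abs ?_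
      omega
  tfae_have 1 → 2 := fun h1 => ⟨fun i _ => h1 i, fun i hi => (main_pair hC hH hN hh hB hi).2.1 (h1 _)⟩
  tfae_have 1 → 3 := fun h1 => ⟨fun i _ => h1 i, fun i hi => (main_pair hC hH hN hh hB hi).1 (h1 i)⟩
  tfae_have 2 → 1 := by
    rintro ⟨h1, h2⟩ i
    rcases le_or_gt (2 * i) (X.dim + 1) with h3 | h3
    · exact h1 i h3
    · rcases lt_or_ge X.dim i with h4 | h4
      · exact above hN h4
      · have h5 := (main_pair hC hH hN hh hB (i := X.dim + 1 - i) (by omega)).2.2.1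
          (h1 _ (by omega)) (h2 (X.dim + 1 - i) (by omega))
        rwa [show X.dim + 1 - (X.dim + 1 - i) = i by omega] at h5
  tfae_have 3 → 1 := by
    rintro ⟨h1, h2⟩ i
    rcases le_or_gt (X.dim + 1) (2 * i) with h3 | h3
    · exact h1 i h3
    · exact (main_pair hC hH hN hh hB (i := i) (by omega)).2.2.2 (h1 _ (by omega))
        (h2 i (by omega))
  tfae_finish

/-- **With the Hodge index theorem.** -/
theorem main_hodge (hC : Prim.IsChowTheory C) (hH : Prim.IsWeilTheory H)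
    (hN : Prim.IsAbelJacobiKernel H N) (hh : C.Deg 1 h) (hB : HasInverseLefschetz H X h)
    {ht : C.A X → C.A X → ℝ} (hp : IsHeightPairing H X ht) (hI : HodgeIndex H X h ht) :
    (∀ i, AJInjective N X i) ↔ ∀ i, X.dim + 1 ≤ 2 * i → AJInjective N X i := by
  have h3 := (main_all hC hH hN hh hB).out 0 2
  refine ⟨fun h1 i _ => h1 i, fun h1 => h3.2 ⟨h1, fun i hi z hz h0 => ?_⟩⟩
  by_contra hne
  have h0' : h ^ (X.dim + 1 - 2 * i) * z = 0 := h0
  have h4 := hI i hi z hz hne (by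
    change h ^ (X.dim + 2 - 2 * i) * z = 0
    rw [show X.dim + 2 - 2 * i = 1 + (X.dim + 1 - 2 * i) by omega, pow_add, mul_assoc, h0',
      mul_zero])
  have h5 : ht z 0 = 0 := by
    have := hp.add_right i (X.dim + 1 - i) (by omega) z 0 0 hz
      ⟨Submodule.zero_mem _, map_zero _⟩ ⟨Submodule.zero_mem _, map_zero _⟩
    rw [add_zero] at this
    linarith
  change 0 < (-1) ^ i * ht z (h ^ (X.dim + 1 - 2 * i) * z) at h4
  rw [h0', h5, mul_zero] at h4
  exact lt_irrefl _ h4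

end Pool.Agent.N166.AJ
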