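import Pool.Agent.N166.HI.Stm

/-!
# Abel-Jacobi maps and hard Lefschetz for one variety: definitions
-/

set_option autoImplicit false

open CategoryTheory AlgebraicGeometry

universe u v w

namespace Pool.Agent.N166.AJ

open Pool.Agent.H914 Pool.Agent.H914.VarClass Pool.Agent.H914.VarClass.Obj Pool.Agent.N164.Prim
open Pool.Agent.W492.BB (TheoryData WeilTheoryData)

variable {k : Type u} [Field k] {𝒱 : VarClass k} {C : TheoryData.{u, v, 0} 𝒱 ℚ}
  {K : Type w} [Field K] (H : WeilTheoryData.{u, v, w} C K)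

/-- The standard conjecture of Lefschetz type for the odd cohomology of `X` and the divisor class
`h`: for `1 ≤ i`, `2 i ≤ n + 1`, `n = dim X`, there is an algebraic cycle `θ` on `X × X` which acts as
the inverse of the multiplication with `h^(n+1-2i)` from `H^(2i-1)(X)` to `H^(2n+1-2i)(X)`. -/
def HasInverseLefschetz (X : 𝒱.Obj) (h : C.A X) : Prop :=
  ∀ i : ℕ, 1 ≤ i → 2 * i ≤ X.dim + 1 → ∃ θ : Cor C X X, C.Deg (2 * i - 1) θ ∧
    (∀ a : H.A X, H.Deg (2 * i - 1) a →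
      H.act (cyc H θ) (H.mul (cyc H (h ^ (X.dim + 1 - 2 * i))) a) = a) ∧
    ∀ b : H.A X, H.Deg (2 * X.dim + 1 - 2 * i) b →
      H.mul (cyc H (h ^ (X.dim + 1 - 2 * i))) (H.act (cyc H θ) b) = b

/-- The Abel-Jacobi map with the kernel `N X i` is injective on `CH^i(X)_hom`. -/
def AJInjective (N : ∀ X : 𝒱.Obj, ℕ → Sub C X) (X : 𝒱.Obj) (i : ℕ) : Prop :=
  ∀ z : C.A X, Mem (N X i) z → z = zero C X

/-- The multiplication `h^(n+1-2i) : CH^i(X)_hom → CH^(n+1-i)(X)_hom`, `n = dim X`, is injective. -/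
def LefschetzInjective (X : 𝒱.Obj) (h : C.A X) (i : ℕ) : Prop :=
  ∀ z : C.A X, HomTriv H i z → C.mul (h ^ (X.dim + 1 - 2 * i)) z = zero C X → z = zero C X

/-- The multiplication `h^(n+1-2i) : CH^i(X)_hom → CH^(n+1-i)(X)_hom`, `n = dim X`, is surjective. -/
def LefschetzSurjective (X : 𝒱.Obj) (h : C.A X) (i : ℕ) : Prop :=
  ∀ w : C.A X, HomTriv H (X.dim + 1 - i) w →
    ∃ z : C.A X, HomTriv H i z ∧ C.mul (h ^ (X.dim + 1 - 2 * i)) z = w

end Pool.Agent.N166.AJ
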